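import Mathlib

/-! Finite check: every 3-colouring of the edges of `K_5` either has a monochromatic path with
three edges, or has a vertex at which every colour is saturated (every colour `k` has a path
with two edges of colour `k` starting at that vertex). -/

namespace Pool.Agent.R798.MonoP3

/-- all three colours -/
def all3 (p : ℕ → Bool) : Bool := p 0 && (p 1 && p 2)

theorem all3_spec {p : ℕ → Bool} (h : all3 p = true) {k : ℕ} (hk : k < 3) : p k = true := by
  unfold all3 at h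
  simp only [Bool.and_eq_true] at h
  interval_cases k
  · exact h.1
  · exact h.2.1
  · exact h.2.2

/-- some path with three edges in `K_5` is monochromatic -/
def mono (a b c d e f g h i j : ℕ) : Bool :=
  (Nat.beq e b && Nat.beq b c) ||
  (Nat.beq e b && Nat.beq b d) ||
  (Nat.beq e a && Nat.beq a c) ||
  (Nat.beq e a && Nat.beq a d) ||
  (Nat.beq b e && Nat.beq e f) ||
  (Nat.beq c f && Nat.beq f e) ||
  (Nat.beq f c && Nat.beq c b) ||
  (Nat.beq f c && Nat.beq c d) ||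
  (Nat.beq b a && Nat.beq a f) ||
  (Nat.beq f a && Nat.beq a d) ||
  (Nat.beq b e && Nat.beq e g) ||
  (Nat.beq c f && Nat.beq f g) ||
  (Nat.beq d g && Nat.beq g e) ||
  (Nat.beq d g && Nat.beq g f) ||
  (Nat.beq g d && Nat.beq d b) ||
  (Nat.beq g d && Nat.beq d c) ||
  (Nat.beq b a && Nat.beq a g) ||
  (Nat.beq c a && Nat.beq a g) ||
  (Nat.beq a e && Nat.beq e h) ||
  (Nat.beq a f && Nat.beq f h) ||
  (Nat.beq b h && Nat.beq h f) ||
  (Nat.beq c h && Nat.beq h e) ||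
  (Nat.beq a b && Nat.beq b h) ||
  (Nat.beq a c && Nat.beq c h) ||
  (Nat.beq h c && Nat.beq c d) ||
  (Nat.beq h f && Nat.beq f g) ||
  (Nat.beq h b && Nat.beq b d) ||
  (Nat.beq h e && Nat.beq e g) ||
  (Nat.beq a e && Nat.beq e i) ||
  (Nat.beq a g && Nat.beq g i) ||
  (Nat.beq b i && Nat.beq i g) ||
  (Nat.beq c h && Nat.beq h i) ||
  (Nat.beq d i && Nat.beq i e) ||
  (Nat.beq d i && Nat.beq i h) ||
  (Nat.beq a b && Nat.beq b i) ||
  (Nat.beq a d && Nat.beq d i) ||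
  (Nat.beq f h && Nat.beq h i) ||
  (Nat.beq g i && Nat.beq i h) ||
  (Nat.beq i d && Nat.beq d c) ||
  (Nat.beq i g && Nat.beq g f) ||
  (Nat.beq c b && Nat.beq b i) ||
  (Nat.beq f e && Nat.beq e i) ||
  (Nat.beq a f && Nat.beq f j) ||
  (Nat.beq a g && Nat.beq g j) ||
  (Nat.beq b h && Nat.beq h j) ||
  (Nat.beq b i && Nat.beq i j) ||
  (Nat.beq c j && Nat.beq j g) ||
  (Nat.beq c j && Nat.beq j i) ||
  (Nat.beq d j && Nat.beq j f) ||
  (Nat.beq d j && Nat.beq j h) ||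
  (Nat.beq a c && Nat.beq c j) ||
  (Nat.beq a d && Nat.beq d j) ||
  (Nat.beq e h && Nat.beq h j) ||
  (Nat.beq e i && Nat.beq i j) ||
  (Nat.beq f j && Nat.beq j i) ||
  (Nat.beq g j && Nat.beq j h) ||
  (Nat.beq b c && Nat.beq c j) ||
  (Nat.beq b d && Nat.beq d j) ||
  (Nat.beq e f && Nat.beq f j) ||
  (Nat.beq e g && Nat.beq g j)
/-- colour `k` is saturated at vertex `0` -/
def sat0 (a b c d e f g h i j k : ℕ) : Bool :=
  (Nat.beq a k && Nat.beq e k) ||
  (Nat.beq a k && Nat.beq f k) ||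
  (Nat.beq a k && Nat.beq g k) ||
  (Nat.beq b k && Nat.beq e k) ||
  (Nat.beq b k && Nat.beq h k) ||
  (Nat.beq b k && Nat.beq i k) ||
  (Nat.beq c k && Nat.beq f k) ||
  (Nat.beq c k && Nat.beq h k) ||
  (Nat.beq c k && Nat.beq j k) ||
  (Nat.beq d k && Nat.beq g k) ||
  (Nat.beq d k && Nat.beq i k) ||
  (Nat.beq d k && Nat.beq j k)
/-- colour `k` is saturated at vertex `1` -/
def sat1 (a b c d e f g h i j k : ℕ) : Bool :=
  (Nat.beq a k && Nat.beq b k) ||
  (Nat.beq a k && Nat.beq c k) ||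
  (Nat.beq a k && Nat.beq d k) ||
  (Nat.beq e k && Nat.beq b k) ||
  (Nat.beq e k && Nat.beq h k) ||
  (Nat.beq e k && Nat.beq i k) ||
  (Nat.beq f k && Nat.beq c k) ||
  (Nat.beq f k && Nat.beq h k) ||
  (Nat.beq f k && Nat.beq j k) ||
  (Nat.beq g k && Nat.beq d k) ||
  (Nat.beq g k && Nat.beq i k) ||
  (Nat.beq g k && Nat.beq j k)
/-- colour `k` is saturated at vertex `2` -/
def sat2 (a b c d e f g h i j k : ℕ) : Bool :=
  (Nat.beq b k && Nat.beq a k) ||
  (Nat.beq b k && Nat.beq c k) ||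
  (Nat.beq b k && Nat.beq d k) ||
  (Nat.beq e k && Nat.beq a k) ||
  (Nat.beq e k && Nat.beq f k) ||
  (Nat.beq e k && Nat.beq g k) ||
  (Nat.beq h k && Nat.beq c k) ||
  (Nat.beq h k && Nat.beq f k) ||
  (Nat.beq h k && Nat.beq j k) ||
  (Nat.beq i k && Nat.beq d k) ||
  (Nat.beq i k && Nat.beq g k) ||
  (Nat.beq i k && Nat.beq j k)
/-- colour `k` is saturated at vertex `3` -/
def sat3 (a b c d e f g h i j k : ℕ) : Bool :=
  (Nat.beq c k && Nat.beq a k) ||
  (Nat.beq c k && Nat.beq b k) ||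
  (Nat.beq c k && Nat.beq d k) ||
  (Nat.beq f k && Nat.beq a k) ||
  (Nat.beq f k && Nat.beq e k) ||
  (Nat.beq f k && Nat.beq g k) ||
  (Nat.beq h k && Nat.beq b k) ||
  (Nat.beq h k && Nat.beq e k) ||
  (Nat.beq h k && Nat.beq i k) ||
  (Nat.beq j k && Nat.beq d k) ||
  (Nat.beq j k && Nat.beq g k) ||
  (Nat.beq j k && Nat.beq i k)
/-- colour `k` is saturated at vertex `4` -/
def sat4 (a b c d e f g h i j k : ℕ) : Bool :=
  (Nat.beq d k && Nat.beq a k) ||
  (Nat.beq d k && Nat.beq b k) ||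
  (Nat.beq d k && Nat.beq c k) ||
  (Nat.beq g k && Nat.beq a k) ||
  (Nat.beq g k && Nat.beq e k) ||
  (Nat.beq g k && Nat.beq f k) ||
  (Nat.beq i k && Nat.beq b k) ||
  (Nat.beq i k && Nat.beq e k) ||
  (Nat.beq i k && Nat.beq h k) ||
  (Nat.beq j k && Nat.beq c k) ||
  (Nat.beq j k && Nat.beq f k) ||
  (Nat.beq j k && Nat.beq h k)
/-- the whole test -/
def good (a b c d e f g h i j : ℕ) : Bool :=
  mono a b c d e f g h i j ||
  all3 (sat0 a b c d e f g h i j) ||
  all3 (sat1 a b c d e f g h i j) ||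
  all3 (sat2 a b c d e f g h i j) ||
  all3 (sat3 a b c d e f g h i j) ||
  all3 (sat4 a b c d e f g h i j)
theorem check : (all3 fun a => all3 fun b => all3 fun c => all3 fun d => all3 fun e =>
    all3 fun f => all3 fun g => all3 fun h => all3 fun i => all3 fun j =>
    good a b c d e f g h i j) = true := by
  decide +kernel
theorem good_all {a b c d e f g h i j : ℕ} (ha : a < 3) (hb : b < 3) (hc : c < 3) (hd : d < 3)
    (he : e < 3) (hf : f < 3) (hg : g < 3) (hh : h < 3) (hi : i < 3) (hj : j < 3) :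
    good a b c d e f g h i j = true :=
  all3_spec (all3_spec (all3_spec (all3_spec (all3_spec (all3_spec (all3_spec (all3_spec
    (all3_spec (all3_spec check ha) hb) hc) hd) he) hf) hg) hh) hi) hj
/-- the colour of the pair `p, q` of vertices of `K_5`, from the ten edge colours -/
def tab (a b c d e f g h i j : ℕ) (p q : Fin 5) : ℕ :=
  match p, q with
  | 0, 0 => 0
  | 0, 1 => a
  | 0, 2 => b
  | 0, 3 => c
  | 0, 4 => d
  | 1, 0 => a
  | 1, 1 => 0
  | 1, 2 => e
  | 1, 3 => f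
  | 1, 4 => g
  | 2, 0 => b
  | 2, 1 => e
  | 2, 2 => 0
  | 2, 3 => h
  | 2, 4 => i
  | 3, 0 => c
  | 3, 1 => f
  | 3, 2 => h
  | 3, 3 => 0
  | 3, 4 => j
  | 4, 0 => d
  | 4, 1 => g
  | 4, 2 => i
  | 4, 3 => j
  | 4, 4 => 0

end Pool.Agent.R798.MonoP3
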