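import Pool.Agent.R798.MonoP3.Check

namespace Pool.Agent.R798.MonoP3

variable {a b c d e f g h i j : ℕ}

theorem mono_spec (H : mono a b c d e f g h i j = true) :
    ∃ p q r s : Fin 5, (p ≠ q ∧ p ≠ r ∧ p ≠ s ∧ q ≠ r ∧ q ≠ s ∧ r ≠ s) ∧
      tab a b c d e f g h i j p q = tab a b c d e f g h i j q r ∧
      tab a b c d e f g h i j q r = tab a b c d e f g h i j r s := by
  simp only [mono, Bool.or_eq_true, Bool.and_eq_true, Nat.beq_eq, or_assoc] at H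
  rcases H with H | H | H | H | H | H | H | H | H | H | H | H | H | H | H | H | H | H | H | H | H | H | H | H | H | H | H | H | H | H | H | H | H | H | H | H | H | H | H | H | H | H | H | H | H | H | H | H | H | H | H | H | H | H | H | H | H | H | H | H
  · exact ⟨1, 2, 0, 3, by decide, H.1, H.2⟩
  · exact ⟨1, 2, 0, 4, by decide, H.1, H.2⟩
  · exact ⟨2, 1, 0, 3, by decide, H.1, H.2⟩
  · exact ⟨2, 1, 0, 4, by decide, H.1, H.2⟩
  · exact ⟨0, 2, 1, 3, by decide, H.1, H.2⟩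
  · exact ⟨0, 3, 1, 2, by decide, H.1, H.2⟩
  · exact ⟨1, 3, 0, 2, by decide, H.1, H.2⟩
  · exact ⟨1, 3, 0, 4, by decide, H.1, H.2⟩
  · exact ⟨2, 0, 1, 3, by decide, H.1, H.2⟩
  · exact ⟨3, 1, 0, 4, by decide, H.1, H.2⟩
  · exact ⟨0, 2, 1, 4, by decide, H.1, H.2⟩
  · exact ⟨0, 3, 1, 4, by decide, H.1, H.2⟩
  · exact ⟨0, 4, 1, 2, by decide, H.1, H.2⟩
  · exact ⟨0, 4, 1, 3, by decide, H.1, H.2⟩
  · exact ⟨1, 4, 0, 2, by decide, H.1, H.2⟩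
  · exact ⟨1, 4, 0, 3, by decide, H.1, H.2⟩
  · exact ⟨2, 0, 1, 4, by decide, H.1, H.2⟩
  · exact ⟨3, 0, 1, 4, by decide, H.1, H.2⟩
  · exact ⟨0, 1, 2, 3, by decide, H.1, H.2⟩
  · exact ⟨0, 1, 3, 2, by decide, H.1, H.2⟩
  · exact ⟨0, 2, 3, 1, by decide, H.1, H.2⟩
  · exact ⟨0, 3, 2, 1, by decide, H.1, H.2⟩
  · exact ⟨1, 0, 2, 3, by decide, H.1, H.2⟩
  · exact ⟨1, 0, 3, 2, by decide, H.1, H.2⟩
  · exact ⟨2, 3, 0, 4, by decide, H.1, H.2⟩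
  · exact ⟨2, 3, 1, 4, by decide, H.1, H.2⟩
  · exact ⟨3, 2, 0, 4, by decide, H.1, H.2⟩
  · exact ⟨3, 2, 1, 4, by decide, H.1, H.2⟩
  · exact ⟨0, 1, 2, 4, by decide, H.1, H.2⟩
  · exact ⟨0, 1, 4, 2, by decide, H.1, H.2⟩
  · exact ⟨0, 2, 4, 1, by decide, H.1, H.2⟩
  · exact ⟨0, 3, 2, 4, by decide, H.1, H.2⟩
  · exact ⟨0, 4, 2, 1, by decide, H.1, H.2⟩
  · exact ⟨0, 4, 2, 3, by decide, H.1, H.2⟩
  · exact ⟨1, 0, 2, 4, by decide, H.1, H.2⟩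
  · exact ⟨1, 0, 4, 2, by decide, H.1, H.2⟩
  · exact ⟨1, 3, 2, 4, by decide, H.1, H.2⟩
  · exact ⟨1, 4, 2, 3, by decide, H.1, H.2⟩
  · exact ⟨2, 4, 0, 3, by decide, H.1, H.2⟩
  · exact ⟨2, 4, 1, 3, by decide, H.1, H.2⟩
  · exact ⟨3, 0, 2, 4, by decide, H.1, H.2⟩
  · exact ⟨3, 1, 2, 4, by decide, H.1, H.2⟩
  · exact ⟨0, 1, 3, 4, by decide, H.1, H.2⟩
  · exact ⟨0, 1, 4, 3, by decide, H.1, H.2⟩
  · exact ⟨0, 2, 3, 4, by decide, H.1, H.2⟩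
  · exact ⟨0, 2, 4, 3, by decide, H.1, H.2⟩
  · exact ⟨0, 3, 4, 1, by decide, H.1, H.2⟩
  · exact ⟨0, 3, 4, 2, by decide, H.1, H.2⟩
  · exact ⟨0, 4, 3, 1, by decide, H.1, H.2⟩
  · exact ⟨0, 4, 3, 2, by decide, H.1, H.2⟩
  · exact ⟨1, 0, 3, 4, by decide, H.1, H.2⟩
  · exact ⟨1, 0, 4, 3, by decide, H.1, H.2⟩
  · exact ⟨1, 2, 3, 4, by decide, H.1, H.2⟩
  · exact ⟨1, 2, 4, 3, by decide, H.1, H.2⟩
  · exact ⟨1, 3, 4, 2, by decide, H.1, H.2⟩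
  · exact ⟨1, 4, 3, 2, by decide, H.1, H.2⟩
  · exact ⟨2, 0, 3, 4, by decide, H.1, H.2⟩
  · exact ⟨2, 0, 4, 3, by decide, H.1, H.2⟩
  · exact ⟨2, 1, 3, 4, by decide, H.1, H.2⟩
  · exact ⟨2, 1, 4, 3, by decide, H.1, H.2⟩

theorem sat0_spec {k : ℕ} (H : sat0 a b c d e f g h i j k = true) :
    ∃ x y : Fin 5, (x ≠ 0 ∧ y ≠ 0 ∧ x ≠ y) ∧
      tab a b c d e f g h i j 0 x = k ∧ tab a b c d e f g h i j x y = k := by
  simp only [sat0, Bool.or_eq_true, Bool.and_eq_true, Nat.beq_eq, or_assoc] at H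
  rcases H with H | H | H | H | H | H | H | H | H | H | H | H
  · exact ⟨1, 2, by decide, H.1, H.2⟩
  · exact ⟨1, 3, by decide, H.1, H.2⟩
  · exact ⟨1, 4, by decide, H.1, H.2⟩
  · exact ⟨2, 1, by decide, H.1, H.2⟩
  · exact ⟨2, 3, by decide, H.1, H.2⟩
  · exact ⟨2, 4, by decide, H.1, H.2⟩
  · exact ⟨3, 1, by decide, H.1, H.2⟩
  · exact ⟨3, 2, by decide, H.1, H.2⟩
  · exact ⟨3, 4, by decide, H.1, H.2⟩
  · exact ⟨4, 1, by decide, H.1, H.2⟩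
  · exact ⟨4, 2, by decide, H.1, H.2⟩
  · exact ⟨4, 3, by decide, H.1, H.2⟩

theorem sat1_spec {k : ℕ} (H : sat1 a b c d e f g h i j k = true) :
    ∃ x y : Fin 5, (x ≠ 1 ∧ y ≠ 1 ∧ x ≠ y) ∧
      tab a b c d e f g h i j 1 x = k ∧ tab a b c d e f g h i j x y = k := by
  simp only [sat1, Bool.or_eq_true, Bool.and_eq_true, Nat.beq_eq, or_assoc] at H
  rcases H with H | H | H | H | H | H | H | H | H | H | H | H
  · exact ⟨0, 2, by decide, H.1, H.2⟩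
  · exact ⟨0, 3, by decide, H.1, H.2⟩
  · exact ⟨0, 4, by decide, H.1, H.2⟩
  · exact ⟨2, 0, by decide, H.1, H.2⟩
  · exact ⟨2, 3, by decide, H.1, H.2⟩
  · exact ⟨2, 4, by decide, H.1, H.2⟩
  · exact ⟨3, 0, by decide, H.1, H.2⟩
  · exact ⟨3, 2, by decide, H.1, H.2⟩
  · exact ⟨3, 4, by decide, H.1, H.2⟩
  · exact ⟨4, 0, by decide, H.1, H.2⟩
  · exact ⟨4, 2, by decide, H.1, H.2⟩
  · exact ⟨4, 3, by decide, H.1, H.2⟩

theorem sat2_spec {k : ℕ} (H : sat2 a b c d e f g h i j k = true) :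
    ∃ x y : Fin 5, (x ≠ 2 ∧ y ≠ 2 ∧ x ≠ y) ∧
      tab a b c d e f g h i j 2 x = k ∧ tab a b c d e f g h i j x y = k := by
  simp only [sat2, Bool.or_eq_true, Bool.and_eq_true, Nat.beq_eq, or_assoc] at H
  rcases H with H | H | H | H | H | H | H | H | H | H | H | H
  · exact ⟨0, 1, by decide, H.1, H.2⟩
  · exact ⟨0, 3, by decide, H.1, H.2⟩
  · exact ⟨0, 4, by decide, H.1, H.2⟩
  · exact ⟨1, 0, by decide, H.1, H.2⟩
  · exact ⟨1, 3, by decide, H.1, H.2⟩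
  · exact ⟨1, 4, by decide, H.1, H.2⟩
  · exact ⟨3, 0, by decide, H.1, H.2⟩
  · exact ⟨3, 1, by decide, H.1, H.2⟩
  · exact ⟨3, 4, by decide, H.1, H.2⟩
  · exact ⟨4, 0, by decide, H.1, H.2⟩
  · exact ⟨4, 1, by decide, H.1, H.2⟩
  · exact ⟨4, 3, by decide, H.1, H.2⟩

theorem sat3_spec {k : ℕ} (H : sat3 a b c d e f g h i j k = true) :
    ∃ x y : Fin 5, (x ≠ 3 ∧ y ≠ 3 ∧ x ≠ y) ∧
      tab a b c d e f g h i j 3 x = k ∧ tab a b c d e f g h i j x y = k := by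
  simp only [sat3, Bool.or_eq_true, Bool.and_eq_true, Nat.beq_eq, or_assoc] at H
  rcases H with H | H | H | H | H | H | H | H | H | H | H | H
  · exact ⟨0, 1, by decide, H.1, H.2⟩
  · exact ⟨0, 2, by decide, H.1, H.2⟩
  · exact ⟨0, 4, by decide, H.1, H.2⟩
  · exact ⟨1, 0, by decide, H.1, H.2⟩
  · exact ⟨1, 2, by decide, H.1, H.2⟩
  · exact ⟨1, 4, by decide, H.1, H.2⟩
  · exact ⟨2, 0, by decide, H.1, H.2⟩
  · exact ⟨2, 1, by decide, H.1, H.2⟩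
  · exact ⟨2, 4, by decide, H.1, H.2⟩
  · exact ⟨4, 0, by decide, H.1, H.2⟩
  · exact ⟨4, 1, by decide, H.1, H.2⟩
  · exact ⟨4, 2, by decide, H.1, H.2⟩

theorem sat4_spec {k : ℕ} (H : sat4 a b c d e f g h i j k = true) :
    ∃ x y : Fin 5, (x ≠ 4 ∧ y ≠ 4 ∧ x ≠ y) ∧
      tab a b c d e f g h i j 4 x = k ∧ tab a b c d e f g h i j x y = k := by
  simp only [sat4, Bool.or_eq_true, Bool.and_eq_true, Nat.beq_eq, or_assoc] at H
  rcases H with H | H | H | H | H | H | H | H | H | H | H | H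
  · exact ⟨0, 1, by decide, H.1, H.2⟩
  · exact ⟨0, 2, by decide, H.1, H.2⟩
  · exact ⟨0, 3, by decide, H.1, H.2⟩
  · exact ⟨1, 0, by decide, H.1, H.2⟩
  · exact ⟨1, 2, by decide, H.1, H.2⟩
  · exact ⟨1, 3, by decide, H.1, H.2⟩
  · exact ⟨2, 0, by decide, H.1, H.2⟩
  · exact ⟨2, 1, by decide, H.1, H.2⟩
  · exact ⟨2, 3, by decide, H.1, H.2⟩
  · exact ⟨3, 0, by decide, H.1, H.2⟩
  · exact ⟨3, 1, by decide, H.1, H.2⟩
  · exact ⟨3, 2, by decide, H.1, H.2⟩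

theorem tab_spec (ha : a < 3) (hb : b < 3) (hc : c < 3) (hd : d < 3)
    (he : e < 3) (hf : f < 3) (hg : g < 3) (hh : h < 3) (hi : i < 3) (hj : j < 3) :
    (∃ p q r s : Fin 5, (p ≠ q ∧ p ≠ r ∧ p ≠ s ∧ q ≠ r ∧ q ≠ s ∧ r ≠ s) ∧
      tab a b c d e f g h i j p q = tab a b c d e f g h i j q r ∧
      tab a b c d e f g h i j q r = tab a b c d e f g h i j r s) ∨
    ∃ v : Fin 5, ∀ k : ℕ, k < 3 → ∃ x y : Fin 5, (x ≠ v ∧ y ≠ v ∧ x ≠ y) ∧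
      tab a b c d e f g h i j v x = k ∧ tab a b c d e f g h i j x y = k := by
  have H := good_all ha hb hc hd he hf hg hh hi hj
  simp only [good, Bool.or_eq_true, or_assoc] at H
  rcases H with H | H | H | H | H | H
  · exact Or.inl (mono_spec H)
  · exact Or.inr ⟨0, fun k hk => sat0_spec (all3_spec H hk)⟩
  · exact Or.inr ⟨1, fun k hk => sat1_spec (all3_spec H hk)⟩
  · exact Or.inr ⟨2, fun k hk => sat2_spec (all3_spec H hk)⟩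
  · exact Or.inr ⟨3, fun k hk => sat3_spec (all3_spec H hk)⟩
  · exact Or.inr ⟨4, fun k hk => sat4_spec (all3_spec H hk)⟩

/-- Finite core: for every symmetric colouring of the pairs of five points with colours `0,1,2`,
some path with three edges is monochromatic, or some vertex is saturated in every colour. -/
theorem core (col : Fin 5 → Fin 5 → ℕ) (hsym : ∀ p q, col p q = col q p)
    (hlt : ∀ p q, col p q < 3) :
    (∃ p q r s : Fin 5, (p ≠ q ∧ p ≠ r ∧ p ≠ s ∧ q ≠ r ∧ q ≠ s ∧ r ≠ s) ∧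
      col p q = col q r ∧ col q r = col r s) ∨
    ∃ v : Fin 5, ∀ k : ℕ, k < 3 → ∃ x y : Fin 5, (x ≠ v ∧ y ≠ v ∧ x ≠ y) ∧
      col v x = k ∧ col x y = k := by
  have key : ∀ p q : Fin 5, p ≠ q → tab (col 0 1) (col 0 2) (col 0 3) (col 0 4) (col 1 2)
      (col 1 3) (col 1 4) (col 2 3) (col 2 4) (col 3 4) p q = col p q := by
    intro p q hpq
    fin_cases p <;> fin_cases q <;>
      first
        | exact absurd rfl hpq
        | rfl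
        | exact hsym _ _
  rcases tab_spec (hlt 0 1) (hlt 0 2) (hlt 0 3) (hlt 0 4) (hlt 1 2) (hlt 1 3) (hlt 1 4)
    (hlt 2 3) (hlt 2 4) (hlt 3 4) with ⟨p, q, r, s, hd, h1, h2⟩ | ⟨v, hv⟩
  · left
    refine ⟨p, q, r, s, hd, ?_, ?_⟩
    · rw [← key p q hd.1, ← key q r hd.2.2.2.1]; exact h1
    · rw [← key q r hd.2.2.2.1, ← key r s hd.2.2.2.2.2]; exact h2
  · right
    refine ⟨v, fun k hk => ?_⟩
    obtain ⟨x, y, hd, h1, h2⟩ := hv k hk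
    refine ⟨x, y, hd, ?_, ?_⟩
    · rw [← key v x hd.1.symm]; exact h1
    · rw [← key x y hd.2.2]; exact h2

end Pool.Agent.R798.MonoP3
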