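import Pool.Agent.R798.MonoP3.Core

namespace Pool.Agent.R798.MonoP3

open Finset Classical

variable {V : Type} [Fintype V] (G : SimpleGraph V)

/-- no path with three edges of one colour -/
def NoMono (col : Sym2 V → Fin 3) : Prop :=
  ∀ a b c d : V, G.Adj a b → G.Adj b c → G.Adj c d → a ≠ c → b ≠ d → a ≠ d →
    col s(a, b) = col s(b, c) → col s(b, c) = col s(c, d) → False

/-- a proper colouring of the vertices in `s` -/
def Col5 (s : Finset V) : Prop :=
  ∃ f : V → Fin 5, ∀ x ∈ s, ∀ y ∈ s, G.Adj x y → f x ≠ f y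

theorem col5_iff (s : Finset V) : Col5 G s ↔ (G.induce (s : Set V)).Colorable 5 := by
  constructor
  · rintro ⟨f, hf⟩
    exact ⟨SimpleGraph.Coloring.mk (fun x => f x.1) (fun {x y} h => hf x.1 x.2 y.1 y.2 h)⟩
  · rintro ⟨C⟩
    refine ⟨fun x => if h : x ∈ s then C ⟨x, h⟩ else 0, ?_⟩
    intro x hx y hy hxy
    simp only [hx, hy, dif_pos]
    exact C.valid (show (G.induce (s : Set V)).Adj ⟨x, hx⟩ ⟨y, hy⟩ from hxy)

theorem col5_univ (h : Col5 G Finset.univ) : G.Colorable 5 := by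
  obtain ⟨f, hf⟩ := h
  exact ⟨SimpleGraph.Coloring.mk f (fun {x y} h => hf x (mem_univ _) y (mem_univ _) h)⟩

theorem exists_min (h : ¬ Col5 G Finset.univ) :
    ∃ s : Finset V, ¬ Col5 G s ∧ ∀ v ∈ s, Col5 G (s.erase v) := by
  obtain ⟨s, hs, hmin⟩ := WellFounded.has_min
    (wellFounded_lt : WellFounded ((· < ·) : Finset V → Finset V → Prop))
    {s | ¬ Col5 G s} ⟨univ, h⟩
  refine ⟨s, hs, fun v hv => ?_⟩
  by_contra hc
  exact hmin _ hc (Finset.erase_ssubset hv)

theorem min_degree {s : Finset V} (hs : ¬ Col5 G s) (hmin : ∀ v ∈ s, Col5 G (s.erase v))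
    {v : V} (hv : v ∈ s) : 5 ≤ (s.filter (G.Adj v)).card := by
  by_contra hlt
  push Not at hlt
  obtain ⟨f, hf⟩ := hmin v hv
  have hc : ((s.filter (G.Adj v)).image f).card < (univ : Finset (Fin 5)).card := by
    calc ((s.filter (G.Adj v)).image f).card ≤ (s.filter (G.Adj v)).card := card_image_le
      _ < 5 := hlt
      _ = _ := by simp
  obtain ⟨k, -, hk⟩ := Finset.exists_mem_notMem_of_card_lt_card hc
  apply hs
  refine ⟨Function.update f v k, ?_⟩
  intro x hx y hy hxy
  by_cases hxv : x = v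
  · subst hxv
    have hyx : y ≠ x := hxy.ne'
    rw [Function.update_self, Function.update_of_ne hyx]
    intro hkf
    exact hk (mem_image.2 ⟨y, mem_filter.2 ⟨hy, hxy⟩, hkf.symm⟩)
  · by_cases hyv : y = v
    · subst hyv
      rw [Function.update_self, Function.update_of_ne hxv]
      intro hkf
      exact hk (mem_image.2 ⟨x, mem_filter.2 ⟨hx, hxy.symm⟩, hkf⟩)
    · rw [Function.update_of_ne hxv, Function.update_of_ne hyv]
      exact hf x (mem_erase.2 ⟨hxv, hx⟩) y (mem_erase.2 ⟨hyv, hy⟩) hxy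

theorem clique_free {col : Sym2 V → Fin 3} (hcol : NoMono G col) {s : Finset V}
    (hdeg : ∀ v ∈ s, 5 ≤ (s.filter (G.Adj v)).card) :
    (G.induce (s : Set V)).CliqueFree 5 := by
  by_contra hcf
  rw [SimpleGraph.not_cliqueFree_iff] at hcf
  obtain ⟨φ⟩ := hcf
  set x : Fin 5 → V := fun i => (φ i : V) with hx
  have hxs : ∀ i, x i ∈ s := fun i => (φ i).2
  have hadj : ∀ i j, i ≠ j → G.Adj (x i) (x j) := by
    intro i j hij
    have h1 : (G.induce (s : Set V)).Adj (φ i) (φ j) :=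
      φ.toHom.map_adj (show (SimpleGraph.completeGraph (Fin 5)).Adj i j from hij)
    exact h1
  have hne : ∀ i j, i ≠ j → x i ≠ x j := fun i j hij => (hadj i j hij).ne
  rcases core (fun i j => (col s(x i, x j)).val)
      (fun p q => by rw [Sym2.eq_swap]) (fun p q => (col s(x p, x q)).isLt) with
    ⟨p, q, r, t, ⟨hpq, hpr, hpt, hqr, hqt, hrt⟩, h1, h2⟩ | ⟨v, hv⟩
  · exact hcol (x p) (x q) (x r) (x t) (hadj _ _ hpq) (hadj _ _ hqr) (hadj _ _ hrt)
      (hne _ _ hpr) (hne _ _ hqt) (hne _ _ hpt) (Fin.ext h1) (Fin.ext h2)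
  · have h5 := hdeg (x v) (hxs v)
    have hlt : ((univ.erase v).image x).card < (s.filter (G.Adj (x v))).card := by
      calc ((univ.erase v).image x).card ≤ (univ.erase v).card := card_image_le
        _ = 4 := by rw [card_erase_of_mem (mem_univ _)]; simp
        _ < 5 := by norm_num
        _ ≤ _ := h5
    obtain ⟨y, hy, hy'⟩ := Finset.exists_mem_notMem_of_card_lt_card hlt
    have hyadj : G.Adj (x v) y := (mem_filter.1 hy).2
    have hyne : ∀ i, i ≠ v → y ≠ x i := by
      intro i hi he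
      exact hy' (mem_image.2 ⟨i, mem_erase.2 ⟨hi, mem_univ _⟩, he.symm⟩)
    obtain ⟨i, j, ⟨hiv, hjv, hij⟩, h1, h2⟩ := hv (col s(y, x v)).val (col s(y, x v)).isLt
    refine hcol y (x v) (x i) (x j) hyadj.symm (hadj _ _ hiv.symm) (hadj _ _ hij)
      (hyne i hiv) (hne _ _ hjv.symm) (hyne j hjv) (Fin.ext h1.symm) (Fin.ext ?_)
    exact h1.trans h2.symm

/-! ### The number of edges -/

/-- neighbours of `v` in `s` by edges of colour `k` -/
noncomputable def nb (col : Sym2 V → Fin 3) (s : Finset V) (k : Fin 3) (v : V) : Finset V :=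
  s.filter fun w => G.Adj v w ∧ col s(v, w) = k

theorem two_of_adj {col : Sym2 V → Fin 3} (hcol : NoMono G col) {s : Finset V} {k : Fin 3}
    {u v : V} (hu : u ∈ s) (hv : v ∈ nb G col s k u)
    (h2 : 2 ≤ (nb G col s k u).card) : (nb G col s k v).card ≤ 2 := by
  obtain ⟨hvs, huv, hc⟩ := mem_filter.1 hv
  obtain ⟨w, hw, hwv⟩ := Finset.exists_mem_ne (by omega : 1 < (nb G col s k u).card) v
  obtain ⟨hws, huw, hcw⟩ := mem_filter.1 hw
  by_contra hgt
  push Not at hgt
  -- a neighbour of `v` different from `u` and `w`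
  have hlt : ({u, w} : Finset V).card < (nb G col s k v).card :=
    lt_of_le_of_lt card_le_two hgt
  obtain ⟨z, hz, hz'⟩ := Finset.exists_mem_notMem_of_card_lt_card hlt
  obtain ⟨hzs, hvz, hcz⟩ := mem_filter.1 hz
  simp only [mem_insert, mem_singleton, not_or] at hz'
  refine hcol w u v z huw.symm huv hvz hwv (Ne.symm hz'.1) (Ne.symm hz'.2) ?_ ?_
  · rw [Sym2.eq_swap, hcw, hc]
  · rw [hc, hcz]

theorem weight {col : Sym2 V → Fin 3} (hcol : NoMono G col) {s : Finset V} {k : Fin 3}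
    {u v : V} (hu : u ∈ s) (hv : v ∈ nb G col s k u) :
    (1 : ℚ) ≤ 1 / (nb G col s k u).card + 1 / (nb G col s k v).card := by
  obtain ⟨hvs, huv, hc⟩ := mem_filter.1 hv
  have hu' : u ∈ nb G col s k v := mem_filter.2 ⟨hu, huv.symm, by rw [Sym2.eq_swap]; exact hc⟩
  have pu : 0 < (nb G col s k u).card := card_pos.2 ⟨v, hv⟩
  have pv : 0 < (nb G col s k v).card := card_pos.2 ⟨u, hu'⟩
  have hpos : ∀ n : ℕ, (0 : ℚ) ≤ 1 / n := fun n => by positivity
  by_cases h1 : (nb G col s k u).card = 1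
  · rw [h1]
    have := hpos (nb G col s k v).card
    norm_num at this ⊢
  · by_cases h2 : (nb G col s k v).card = 1
    · rw [h2]
      have := hpos (nb G col s k u).card
      norm_num at this ⊢
    · have a1 := two_of_adj G hcol hu hv (by omega)
      have a2 := two_of_adj G hcol hvs hu' (by omega)
      have e1 : (nb G col s k u).card = 2 := by omega
      have e2 : (nb G col s k v).card = 2 := by omega
      rw [e1, e2]; norm_num

theorem colour_bound {col : Sym2 V → Fin 3} (hcol : NoMono G col) (s : Finset V) (k : Fin 3) :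
    ∑ u ∈ s, (nb G col s k u).card ≤ 2 * s.card := by
  have hswap : ∑ u ∈ s, ∑ v ∈ nb G col s k u, (1 / ((nb G col s k v).card : ℚ))
      = ∑ v ∈ s, ∑ u ∈ nb G col s k v, (1 / ((nb G col s k v).card : ℚ)) := by
    apply Finset.sum_comm'
    intro x y
    constructor
    · rintro ⟨hx, hy⟩
      obtain ⟨hys, hxy, hc⟩ := mem_filter.1 hy
      exact ⟨mem_filter.2 ⟨hx, hxy.symm, by rw [Sym2.eq_swap]; exact hc⟩, hys⟩
    · rintro ⟨hx, hy⟩
      obtain ⟨hxs, hxy, hc⟩ := mem_filter.1 hx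
      exact ⟨hxs, mem_filter.2 ⟨hy, hxy.symm, by rw [Sym2.eq_swap]; exact hc⟩⟩
  have hone : ∀ u : V, ∑ v ∈ nb G col s k u, (1 / ((nb G col s k u).card : ℚ)) ≤ 1 := by
    intro u
    rw [Finset.sum_const, nsmul_eq_mul]
    by_cases h0 : (nb G col s k u).card = 0
    · rw [h0]; norm_num
    · rw [mul_one_div_cancel (by exact_mod_cast h0)]
  have hq : ((∑ u ∈ s, (nb G col s k u).card : ℕ) : ℚ) ≤ 2 * s.card := by
    push_cast
    calc ∑ u ∈ s, ((nb G col s k u).card : ℚ)
        = ∑ u ∈ s, ∑ v ∈ nb G col s k u, (1 : ℚ) := by simp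
      _ ≤ ∑ u ∈ s, ∑ v ∈ nb G col s k u,
            (1 / ((nb G col s k u).card : ℚ) + 1 / ((nb G col s k v).card : ℚ)) := by
          apply Finset.sum_le_sum; intro u hu
          apply Finset.sum_le_sum; intro v hv
          exact weight G hcol hu hv
      _ = ∑ u ∈ s, ∑ v ∈ nb G col s k u, (1 / ((nb G col s k u).card : ℚ))
          + ∑ u ∈ s, ∑ v ∈ nb G col s k u, (1 / ((nb G col s k v).card : ℚ)) := by
          rw [← Finset.sum_add_distrib]
          apply Finset.sum_congr rfl; intro u _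
          rw [← Finset.sum_add_distrib]
      _ = ∑ u ∈ s, ∑ v ∈ nb G col s k u, (1 / ((nb G col s k u).card : ℚ))
          + ∑ v ∈ s, ∑ u ∈ nb G col s k v, (1 / ((nb G col s k v).card : ℚ)) := by rw [hswap]
      _ ≤ ∑ u ∈ s, (1 : ℚ) + ∑ v ∈ s, (1 : ℚ) := by
          apply add_le_add
          · exact Finset.sum_le_sum fun u _ => hone u
          · exact Finset.sum_le_sum fun u _ => hone u
      _ = 2 * s.card := by simp; ring
  exact_mod_cast hq

theorem degree_bound {col : Sym2 V → Fin 3} (hcol : NoMono G col) (s : Finset V) :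
    ∑ u ∈ s, (s.filter (G.Adj u)).card ≤ 6 * s.card := by
  have h : ∀ u, (s.filter (G.Adj u)).card = ∑ k : Fin 3, (nb G col s k u).card := by
    intro u
    rw [← Finset.card_biUnion]
    · congr 1
      ext w
      simp [nb]
    · intro k _ l _ hkl
      rw [Function.onFun, Finset.disjoint_left]
      intro w hw hw'
      exact hkl ((mem_filter.1 hw).2.2.symm.trans (mem_filter.1 hw').2.2)
  simp_rw [h]
  rw [Finset.sum_comm]
  calc ∑ k : Fin 3, ∑ u ∈ s, (nb G col s k u).card
      ≤ ∑ _k : Fin 3, 2 * s.card := Finset.sum_le_sum fun k _ => colour_bound G hcol s k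
    _ = 6 * s.card := by simp; ring

end Pool.Agent.R798.MonoP3
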